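import Mathlib

set_option autoImplicit false

namespace Pool.Agent.Results.MP_9149b8_co.StrictDecrease

open scoped RealInnerProductSpace

/-- The worst-case coherence of a sequence of `N` vectors in `ℝ^M`: the largest `|⟨f_i, f_j⟩|`
over all pairs `i ≠ j` (there are such pairs when `N ≥ 2`). -/
noncomputable def coherence {N M : ℕ} (F : Fin N → EuclideanSpace ℝ (Fin M)) : ℝ :=
  ⨆ p : {p : Fin N × Fin N // p.1 ≠ p.2}, |⟪F p.1.1, F p.1.2⟫|

/-- The values of the coherence over all sequences of `N` unit vectors in `ℝ^M`. -/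
def coherenceValues (N M : ℕ) : Set ℝ :=
  {c | ∃ F : Fin N → EuclideanSpace ℝ (Fin M), (∀ i, ‖F i‖ = 1) ∧ coherence F = c}

/-- The optimal coherence `μ(N, M)`, the smallest value (see the first part of `result` for the
fact that the infimum is attained). -/
noncomputable def optimalCoherence (N M : ℕ) : ℝ := sInf (coherenceValues N M)

theorem le_coherence {N M : ℕ} (F : Fin N → EuclideanSpace ℝ (Fin M)) {i j : Fin N}
    (h : i ≠ j) : |⟪F i, F j⟫| ≤ coherence F :=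
  le_ciSup (f := fun p : {p : Fin N × Fin N // p.1 ≠ p.2} => |⟪F p.1.1, F p.1.2⟫|)
    (Set.finite_range _).bddAbove ⟨(i, j), h⟩

theorem exists_coherence {N M : ℕ} (hN : 2 ≤ N) (F : Fin N → EuclideanSpace ℝ (Fin M)) :
    ∃ i j : Fin N, i ≠ j ∧ coherence F = |⟪F i, F j⟫| := by
  have : Nonempty {p : Fin N × Fin N // p.1 ≠ p.2} :=
    ⟨⟨(⟨0, by omega⟩, ⟨1, by omega⟩), by simp [Fin.ext_iff]⟩⟩
  obtain ⟨p, hp⟩ := exists_eq_ciSup_of_finite
    (f := fun p : {p : Fin N × Fin N // p.1 ≠ p.2} => |⟪F p.1.1, F p.1.2⟫|)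
  exact ⟨p.1.1, p.1.2, p.2, hp.symm⟩

theorem coherence_nonneg {N M : ℕ} (hN : 2 ≤ N) (F : Fin N → EuclideanSpace ℝ (Fin M)) :
    0 ≤ coherence F := by
  obtain ⟨i, j, _, h⟩ := exists_coherence hN F
  rw [h]; exact abs_nonneg _

theorem isCompact_unit (N M : ℕ) :
    IsCompact {F : Fin N → EuclideanSpace ℝ (Fin M) | ∀ i, ‖F i‖ = 1} := by
  have h := isCompact_univ_pi (X := fun _ : Fin N => EuclideanSpace ℝ (Fin M))
    (s := fun _ => Metric.sphere (0 : EuclideanSpace ℝ (Fin M)) 1) fun _ => isCompact_sphere _ _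
  convert h using 1
  ext F
  simp [Set.mem_pi]

theorem continuous_coherence (N M : ℕ) (hN : 2 ≤ N) :
    Continuous (coherence : (Fin N → EuclideanSpace ℝ (Fin M)) → ℝ) := by
  have : Nonempty {p : Fin N × Fin N // p.1 ≠ p.2} :=
    ⟨⟨(⟨0, by omega⟩, ⟨1, by omega⟩), by simp [Fin.ext_iff]⟩⟩
  have h : (coherence : (Fin N → EuclideanSpace ℝ (Fin M)) → ℝ) = fun F =>
      (Finset.univ : Finset {p : Fin N × Fin N // p.1 ≠ p.2}).sup' Finset.univ_nonempty
        fun p => |⟪F p.1.1, F p.1.2⟫| := by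
    funext F
    rw [Finset.sup'_univ_eq_ciSup]
    rfl
  rw [h]
  refine Continuous.finset_sup'_apply _ fun p _ => ?_
  exact ((continuous_apply p.1.1).inner (continuous_apply p.1.2)).abs

theorem exists_unit (N M : ℕ) (hM : 1 ≤ M) :
    ∃ F : Fin N → EuclideanSpace ℝ (Fin M), ∀ i, ‖F i‖ = 1 :=
  ⟨fun _ => EuclideanSpace.single ⟨0, hM⟩ 1, fun _ => by simp⟩

/-- the minimum is attained -/
theorem isLeast (N M : ℕ) (hN : 2 ≤ N) (hM : 1 ≤ M) :
    IsLeast (coherenceValues N M) (optimalCoherence N M) := by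
  obtain ⟨F, hF, hmin⟩ := (isCompact_unit N M).exists_isMinOn (exists_unit N M hM)
    (continuous_coherence N M hN).continuousOn
  have hl : IsLeast (coherenceValues N M) (coherence F) := by
    refine ⟨⟨F, hF, rfl⟩, ?_⟩
    rintro _ ⟨G, hG, rfl⟩
    exact hmin hG
  have : optimalCoherence N M = coherence F := hl.csInf_eq
  rw [this]
  exact hl

/-- the lifted vector -/
noncomputable def lift {M : ℕ} (h : ℝ) (f : EuclideanSpace ℝ (Fin M)) :
    EuclideanSpace ℝ (Fin (M + 1)) :=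
  WithLp.toLp 2 (Fin.cons h (fun k => Real.sqrt (1 - h ^ 2) * f k))

theorem inner_lift {M : ℕ} (h k : ℝ) (f g : EuclideanSpace ℝ (Fin M)) :
    ⟪lift h f, lift k g⟫ = h * k + Real.sqrt (1 - h ^ 2) * Real.sqrt (1 - k ^ 2) * ⟪f, g⟫ := by
  rw [PiLp.inner_apply, PiLp.inner_apply, Fin.sum_univ_succ, Finset.mul_sum]
  simp only [lift, Fin.cons_zero, Fin.cons_succ, RCLike.inner_apply, conj_trivial]
  congr 1
  · ring
  · exact Finset.sum_congr rfl fun i _ => by ring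

theorem norm_lift {M : ℕ} {h : ℝ} (hh : h ^ 2 ≤ 1) {f : EuclideanSpace ℝ (Fin M)} (hf : ‖f‖ = 1) :
    ‖lift h f‖ = 1 := by
  have h1 : ‖lift h f‖ ^ 2 = 1 := by
    rw [← real_inner_self_eq_norm_sq, inner_lift, real_inner_self_eq_norm_sq, hf,
      ← pow_two (Real.sqrt _), Real.sq_sqrt (by linarith)]
    ring
  exact (pow_eq_one_iff_of_nonneg (norm_nonneg _) two_ne_zero).1 h1

/-- the basic estimate -/
theorem estimate {μ h k x : ℝ} (hμ : 0 < μ) (h0 : 0 < h) (h1 : h ≤ 1) (k0 : 0 < k)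
    (hk : 4 * k ≤ μ * h) (hx : |x| ≤ μ) :
    |h * k + Real.sqrt (1 - h ^ 2) * Real.sqrt (1 - k ^ 2) * x| < μ := by
  have e1 : Real.sqrt (1 - h ^ 2) ≤ 1 - h ^ 2 / 2 := by
    rw [Real.sqrt_le_left (by nlinarith)]
    nlinarith [sq_nonneg (h ^ 2)]
  have e2 : Real.sqrt (1 - k ^ 2) ≤ 1 := by
    rw [Real.sqrt_le_one]
    nlinarith [sq_nonneg k]
  have e3 := Real.sqrt_nonneg (1 - h ^ 2)
  have e4 := Real.sqrt_nonneg (1 - k ^ 2)
  have e5 : Real.sqrt (1 - h ^ 2) * Real.sqrt (1 - k ^ 2) ≤ 1 - h ^ 2 / 2 := by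
    calc Real.sqrt (1 - h ^ 2) * Real.sqrt (1 - k ^ 2) ≤ Real.sqrt (1 - h ^ 2) * 1 :=
          mul_le_mul_of_nonneg_left e2 e3
      _ ≤ _ := by linarith
  have e6 : |Real.sqrt (1 - h ^ 2) * Real.sqrt (1 - k ^ 2) * x| ≤ (1 - h ^ 2 / 2) * μ := by
    rw [abs_mul, abs_of_nonneg (mul_nonneg e3 e4)]
    exact mul_le_mul e5 hx (abs_nonneg _) (by nlinarith)
  have e7 : |h * k + Real.sqrt (1 - h ^ 2) * Real.sqrt (1 - k ^ 2) * x| ≤
      h * k + (1 - h ^ 2 / 2) * μ := by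
    refine (abs_add_le _ _).trans ?_
    rw [abs_of_pos (mul_pos h0 k0)]
    linarith
  refine e7.trans_lt ?_
  have e8 : h * (4 * k) ≤ h * (μ * h) := mul_le_mul_of_nonneg_left hk h0.le
  have e9 : 0 < μ * h ^ 2 := by positivity
  nlinarith

theorem pos_coherence {N M : ℕ} (hN : 2 ≤ N) (hMN : M < N)
    (F : Fin N → EuclideanSpace ℝ (Fin M)) (hF : ∀ i, ‖F i‖ = 1) : 0 < coherence F := by
  refine lt_of_le_of_ne (coherence_nonneg hN F) fun h0 => ?_
  have hO : Orthonormal ℝ F := by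
    refine ⟨hF, fun i j hij => ?_⟩
    have := le_coherence F hij
    rw [← h0] at this
    exact abs_eq_zero.1 (le_antisymm this (abs_nonneg _))
  have := hO.linearIndependent.fintype_card_le_finrank
  simp at this
  omega

/-- For all `N ≥ 2` and `M ≥ 1` the optimal coherence is an attained minimum, and
`μ(N, M + 1) < μ(N, M)` for all `N ≥ 2` and `1 ≤ M ≤ N - 1`. -/
theorem result :
    (∀ N M : ℕ, 2 ≤ N → 1 ≤ M → IsLeast (coherenceValues N M) (optimalCoherence N M)) ∧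
    ∀ N M : ℕ, 2 ≤ N → 1 ≤ M → M ≤ N - 1 → optimalCoherence N (M + 1) < optimalCoherence N M := by
  refine ⟨isLeast, fun N M hN hM hMN => ?_⟩
  obtain ⟨F, hF, hFc⟩ := (isLeast N M hN hM).1
  rw [← hFc]
  have hμ : 0 < coherence F := pos_coherence hN (by omega) F hF
  -- all inner products are at most one, so the coherence is at most one
  have hμ1 : coherence F ≤ 1 := by
    obtain ⟨i, j, _, h⟩ := exists_coherence hN F
    rw [h]
    have := abs_real_inner_le_norm (F i) (F j)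
    rwa [hF i, hF j, one_mul] at this
  set μ := coherence F with hμdef
  set δ : ℝ := μ / 4 with hδ
  have hδ0 : 0 < δ := by positivity
  have hδ1 : δ ≤ 1 := by linarith
  have hp : ∀ n : ℕ, 0 < δ ^ n ∧ δ ^ n ≤ 1 := fun n => ⟨pow_pos hδ0 n, pow_le_one₀ hδ0.le hδ1⟩
  let G : Fin N → EuclideanSpace ℝ (Fin (M + 1)) := fun i => lift (δ ^ (i : ℕ)) (F i)
  have hG : ∀ i, ‖G i‖ = 1 := fun i => by
    refine norm_lift ?_ (hF i)
    have := hp i
    nlinarith
  have hlt : ∀ i j : Fin N, i < j → |⟪G i, G j⟫| < μ := by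
    intro i j hij
    show |⟪lift (δ ^ (i : ℕ)) (F i), lift (δ ^ (j : ℕ)) (F j)⟫| < μ
    rw [inner_lift]
    refine estimate hμ (hp i).1 (hp i).2 (hp j).1 ?_ (le_coherence F hij.ne)
    have hle : δ ^ (j : ℕ) ≤ δ ^ ((i : ℕ) + 1) :=
      pow_le_pow_of_le_one hδ0.le hδ1 hij
    rw [pow_succ] at hle
    have : 4 * (δ ^ (i : ℕ) * δ) = μ * δ ^ (i : ℕ) := by rw [hδ]; ring
    linarith
  obtain ⟨i, j, hij, hc⟩ := exists_coherence hN G
  have hGlt : coherence G < μ := by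
    rw [hc]
    rcases lt_or_gt_of_ne hij with h | h
    · exact hlt i j h
    · rw [real_inner_comm]; exact hlt j i h
  exact ((isLeast N (M + 1) hN (by omega)).2 ⟨G, hG, rfl⟩).trans_lt hGlt

end Pool.Agent.Results.MP_9149b8_co.StrictDecrease
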